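import Mathlib
import Pool.Agent.L0h20.MM.Main
import Pool.Agent.L0h20.MM.Extremal

/-!
# The smallest Mahler measure of nonreciprocal polynomials with `ℓ < 2 k`

Let `P` be a monic irreducible nonreciprocal integer polynomial, `P ≠ X`, `P(0) = ± 1`, and let
`k < ℓ` be the two smallest positive exponents of the power series `P(0) P / P^*`, where `P^*` is
the reverse of `P`. Among the polynomials with `ℓ < 2 k` the smallest Mahler measure is that of
`X ^ 5 - X ^ 2 + 1`, that is `1.364199...`, a zero of `x^10 - x^7 - x^6 - 2 x^5 + x + 1`. The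
minimum is attained (by `X ^ 5 - X ^ 2 + 1`, for which `k = 2`, `ℓ = 3`).

Method: `P(0) P / P^* = f / g` with two contractive multipliers `f`, `g` (Blaschke products), with
`f(0) = g(0) = 1 / M(P)`. The finite sections of the Toeplitz matrices of `f` and `g` have norm at
most one; for given first coefficients of the quotient, maximising `g(0)` under these constraints
is a semidefinite program. Sections on index sets such as
`{0, d, 2 d, k, k + d, 2 k - d, 2 k}`, `d = ℓ - k`, uniform in `k` and `ℓ`, suffice; the dual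
solutions have rank two or three and are rational except for the ratio `ℓ / k = 3 / 2`, where
there is a sharp dual solution with coefficients in the number field of degree ten generated by
the minimum.
-/

namespace Pool.Agent.Results.MP_a046b2_nt.SmallestMeasure

open Polynomial

/-- The set `𝒮` of the problem. `P` is a monic irreducible integer polynomial different from `X`
with `P(0) = ± 1` that is not reciprocal (`P ≠ ± P^*`, `P^* = X ^ d P(1 / X)` its reverse), and
the power series `A = P(0) P / P^*` has two positive exponents `k < ℓ` with nonzero coefficients,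
all other coefficients in degrees strictly between `0` and `ℓ` being zero, such that `ℓ < 2 k`. -/
def InS (P : ℤ[X]) : Prop :=
  P.Monic ∧ Irreducible P ∧ P ≠ X ∧ (P.coeff 0 = 1 ∨ P.coeff 0 = -1) ∧
    P ≠ P.reverse ∧ P ≠ -P.reverse ∧
    ∃ A : PowerSeries ℤ,
      A * (P.reverse : PowerSeries ℤ) = PowerSeries.C (P.coeff 0) * (P : PowerSeries ℤ) ∧
      ∃ k l : ℕ, 0 < k ∧ k < l ∧ l < 2 * k ∧ PowerSeries.coeff k A ≠ 0 ∧
        PowerSeries.coeff l A ≠ 0 ∧
        ∀ i, 0 < i → i < l → i ≠ k → PowerSeries.coeff i A = 0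

/-- The Mahler measure of an integer polynomial. -/
noncomputable def M (P : ℤ[X]) : ℝ := (P.map (Int.castRingHom ℂ)).mahlerMeasure

theorem inS_extremal : InS (X ^ 5 - X ^ 2 + 1) := by
  have hmon : (X ^ 5 - X ^ 2 + 1 : ℤ[X]).Monic := by monicity!
  have hc0 : (X ^ 5 - X ^ 2 + 1 : ℤ[X]).coeff 0 = 1 := by simp
  have hne : ∀ c : ℤ, (X ^ 5 - X ^ 2 + 1 : ℤ[X]) ≠ C c * (X ^ 5 - X ^ 3 + 1) := by
    intro c h
    have h2 := congrArg (fun p : ℤ[X] => p.coeff 2) h
    simp [coeff_X_pow, coeff_one] at h2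
  refine ⟨hmon, Pool.Agent.L0h20.MM.irreducible_extremal, ?_, Or.inl hc0, ?_, ?_, ?_⟩
  · intro h
    have h2 := congrArg (fun p : ℤ[X] => p.coeff 0) h
    simp at h2
  · rw [Pool.Agent.L0h20.MM.reverse_extremal]
    simpa using hne 1
  · rw [Pool.Agent.L0h20.MM.reverse_extremal]
    have := hne (-1)
    simpa only [C_neg, C_1, neg_mul, one_mul] using this
  · rw [Pool.Agent.L0h20.MM.reverse_extremal, hc0]
    set Q : PowerSeries ℤ := ((X ^ 5 - X ^ 3 + 1 : ℤ[X]) : PowerSeries ℤ) with hQ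
    have hQc : PowerSeries.constantCoeff Q = ((1 : ℤˣ) : ℤ) := by
      rw [hQ, Polynomial.constantCoeff_coe]; simp
    set A : PowerSeries ℤ :=
      ((X ^ 5 - X ^ 2 + 1 : ℤ[X]) : PowerSeries ℤ) * PowerSeries.invOfUnit Q 1 with hA
    have hAQ : A * Q = ((X ^ 5 - X ^ 2 + 1 : ℤ[X]) : PowerSeries ℤ) := by
      rw [hA, mul_assoc, mul_comm (PowerSeries.invOfUnit Q 1) Q,
        PowerSeries.mul_invOfUnit Q 1 hQc, mul_one]
    have hco : ∀ n, PowerSeries.coeff n (A * Q) = (X ^ 5 - X ^ 2 + 1 : ℤ[X]).coeff n := by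
      intro n; rw [hAQ, Polynomial.coeff_coe]
    have hexp : A * Q = A * PowerSeries.X ^ 5 - A * PowerSeries.X ^ 3 + A := by
      rw [hQ]; push_cast; ring
    have c0 := hco 0
    have c1 := hco 1
    have c2 := hco 2
    have c3 := hco 3
    rw [hexp] at c0 c1 c2 c3
    simp [PowerSeries.coeff_mul_X_pow', coeff_X_pow, coeff_one] at c0 c1 c2 c3
    refine ⟨A, ?_, 2, 3, by norm_num, by norm_num, by norm_num, ?_, ?_, ?_⟩
    · rw [hAQ]; simp
    · rw [c2]; norm_num
    · intro h; rw [h] at c3; simp [c0] at c3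
    · intro i hi hi3 hi2
      interval_cases i
      · exact c1
      · exact absurd rfl hi2

/-- **The smallest Mahler measure of monic irreducible nonreciprocal polynomials with `ℓ < 2 k`
is `M(X ^ 5 - X ^ 2 + 1) = 1.364199...`, and it is attained.** -/
theorem result :
    IsLeast {x : ℝ | ∃ P : ℤ[X], InS P ∧ M P = x} (M (X ^ 5 - X ^ 2 + 1)) ∧
      InS (X ^ 5 - X ^ 2 + 1) ∧
      1.364199 < M (X ^ 5 - X ^ 2 + 1) ∧ M (X ^ 5 - X ^ 2 + 1) < 1.3642 ∧
      (M (X ^ 5 - X ^ 2 + 1)) ^ 10 - (M (X ^ 5 - X ^ 2 + 1)) ^ 7 - (M (X ^ 5 - X ^ 2 + 1)) ^ 6 -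
        2 * (M (X ^ 5 - X ^ 2 + 1)) ^ 5 + M (X ^ 5 - X ^ 2 + 1) + 1 = 0 := by
  obtain ⟨m, hm, h1, h2⟩ := Pool.Agent.L0h20.MM.exists_mu
  have hval : M (X ^ 5 - X ^ 2 + 1) = m := by
    unfold M
    have : ((X ^ 5 - X ^ 2 + 1 : ℤ[X]).map (Int.castRingHom ℂ)) = X ^ 5 - X ^ 2 + 1 := by simp
    rw [this]
    exact Pool.Agent.L0h20.MM.upper_bound m hm h1 h2
  rw [hval]
  refine ⟨⟨⟨_, inS_extremal, hval⟩, ?_⟩, inS_extremal, h1, h2, hm⟩
  rintro x ⟨P, ⟨hmon, -, -, hP0, -, -, A, hA, k, l, h0k, hkl, hl2, hAk, hAl, hAz⟩, rfl⟩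
  exact Pool.Agent.L0h20.MM.lower_bound P hmon hP0 A hA k l h0k hkl hl2 hAk hAl hAz m hm
    (by linarith) (by linarith)

end Pool.Agent.Results.MP_a046b2_nt.SmallestMeasure
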